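import Pool.Agent.Work.MP_57e339_an.Final

/-!
# MP_57e339_an, Q1: approximate controllability of the Navier-Stokes system by a finite-dimensional
# space of forces supported in an arbitrary open set

All the notions are defined in `Pool.Agent.Work.MP_57e339_an.Stmt` (namespace `LocNS`).
-/

namespace Pool.Agent.Results.MP_57e339_an.LocalizedApproxControl

open LocNS

/-- Let `d = 2` or `3` and let `D` be a nonempty open subset of the torus (an open set of `R^d`
invariant under `2 pi Z^d`).  Then `D` contains a ball of radius at most `1`, and for every such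
ball the explicit finite family `controlField x₀ r` of fields belongs to `V_D` and its span, as
well as every larger finite-dimensional subspace of `V_D` (spanned by it and by finitely many fields
`w j`; possibly `n = 0`), makes the Navier-Stokes system approximately controllable in any time,
for every viscosity `ν > 0`. -/
theorem result (d : ℕ) (hd : d = 2 ∨ d = 3) (D : Set (Space d)) (hD : IsOpen D)
    (hne : D.Nonempty) (hper : ∀ x ∈ D, ∀ l : Freq d, x + period l ∈ D) :
    (∃ (x₀ : Space d) (r : ℝ), 0 < r ∧ r ≤ 1 ∧ Metric.ball x₀ r ⊆ D) ∧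
    ∀ (x₀ : Space d) (r : ℝ), 0 < r → r ≤ 1 → Metric.ball x₀ r ⊆ D →
      (∀ s, InVD D (controlField x₀ r s)) ∧
      ∀ (n : ℕ) (w : Fin n → VField d), (∀ j, InVD D (w j)) → ∀ ν : ℝ, 0 < ν →
        ApproxControllable ν (Sum.elim (controlField x₀ r) w) := by
  refine ⟨?_, ?_⟩
  · obtain ⟨x₀, hx₀⟩ := hne
    obtain ⟨r, hr, hball⟩ := Metric.isOpen_iff.1 hD x₀ hx₀
    exact ⟨x₀, min r 1, lt_min hr one_pos, min_le_right _ _,
      (Metric.ball_subset_ball (min_le_left _ _)).trans hball⟩
  · intro x₀ r hr hr1 hball
    exact ⟨fun s => NSC.br_inVD hd hr hr1 hball hper s,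
      fun n w hw ν hν => NSC.mainApprox hd hr hr1 hν fun j => (hw j).inV⟩

end Pool.Agent.Results.MP_57e339_an.LocalizedApproxControl
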